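import Pool.Agent.H741.EL.Stm

/-!
# Project EL, part CA: the perturbation when the contact directions reduce to one direction
-/

set_option autoImplicit false
open MeasureTheory Metric Set Filter Topology

namespace Pool.Agent.H741.EL
open Pool.Agent.Y508

lemma ca_ip_zero (θ : ℝ) : ip (0 : E2) θ = 0 := by
  simp [ip]

theorem t_CA (_h1 : S_QQ) : S_CA := by
  intro a b p K θp R s _hc _hp hs0 hsR hW harc
  have hR : 0 < R := hs0.trans hsR
  -- the neighbourhood
  have hcont : Continuous (fun φ : ℝ => R * Real.cos φ) := by fun_prop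
  have h0 : s < (fun φ : ℝ => R * Real.cos φ) 0 := by simpa using hsR
  have hev : ∀ᶠ φ in 𝓝 (0 : ℝ), s < R * Real.cos φ :=
    hcont.continuousAt.eventually (lt_mem_nhds h0)
  obtain ⟨ε, hε, hball⟩ := Metric.eventually_nhds_iff.1 hev
  refine ⟨0, 1, min (ε / 2) 1, ?_⟩
  have hφ1 : 0 < min (ε / 2) (1 : ℝ) := lt_min (by linarith) one_pos
  have hφ2 : min (ε / 2) (1 : ℝ) < Real.pi :=
    lt_of_le_of_lt (min_le_right _ _) (by linarith [Real.pi_gt_three])
  refine ⟨one_pos, hφ1, hφ2, ?_, ?_, ?_⟩
  · intro φ hφ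
    refine ⟨?_, ?_⟩
    · have hd : dist φ 0 < ε := by
        rw [Real.dist_eq, sub_zero]
        have := min_le_left (ε / 2) (1 : ℝ)
        linarith
      exact (hball hd).le
    · rw [ca_ip_zero]
  · intro θ hθ heq
    exfalso
    have := harc.off θ ⟨by linarith [hθ.1], by linarith [hθ.2]⟩
    rw [heq] at this
    exact lt_irrefl _ this
  · have hz : (∫ θ in (0 : ℝ)..(2 * Real.pi),
        if hs K θ = ip p θ then max (ip (0 : E2) θ) 0 else 0) = 0 := by
      have : (fun θ : ℝ => if hs K θ = ip p θ then max (ip (0 : E2) θ) 0 else (0 : ℝ)) =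
          fun _ => (0 : ℝ) := by
        funext θ
        simp [ca_ip_zero]
      rw [this]
      simp
    rw [hz]
    linarith

end Pool.Agent.H741.EL
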